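import Mathlib
import Pool.Agent.H.MP_5b0e2c_al.F

namespace Pool.Agent.Results.MP_5b0e2c_al.Yes

open Function Pool.Agent.H.MP_5b0e2c_al

/-- the three properties characterising the rational Urysohn space -/
def IsQU (X : Type) [MetricSpace X] : Prop :=
  Countable X ∧ (∀ x y : X, ∃ q : ℚ, dist x y = q) ∧
  (∀ A B : Set X, A.Finite → B.Finite → ∀ f : A ≃ᵢ B, ∃ e : X ≃ᵢ X, ∀ a : A, e a = f a) ∧
  ∀ (Y : Type) [MetricSpace Y] [Finite Y], (∀ x y : Y, ∃ q : ℚ, dist x y = q) →
    ∃ f : Y → X, Isometry f

/-- a structurally sharply `k`-transitive action by isometries -/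
def Sharp (k : ℕ) (G X : Type) [Group G] [MetricSpace X] [MulAction G X] : Prop :=
  (∀ (g : G) (x y : X), dist (g • x) (g • y) = dist x y) ∧
  ∀ a b : Fin k → X, Injective a → Injective b → (∀ i j, dist (a i) (a j) = dist (b i) (b j)) →
    ∃! g : G, ∀ i, g • a i = b i

theorem result (k : ℕ) (hk : k = 2 ∨ k = 3) :
    ∃ (X : Type) (_ : MetricSpace X), IsQU X ∧
      ∃ (G : Type) (_ : Group G) (_ : MulAction G X), Sharp k G X := by
  obtain ⟨L, hI, hM, hE, hS⟩ := main k hk
  let _ : MetricSpace L.X :=
    { dist := fun x y => (L.d x y : ℝ)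
      dist_self := fun x => by simp [hM.1.self]
      dist_comm := fun x y => by rw [hM.1.symm]
      dist_triangle := fun x y z => by exact_mod_cast hM.1.tri x y z
      eq_of_dist_eq_zero := fun {x y} h => (hM.1.zero x y).1 (by exact_mod_cast h) }
  have hd : ∀ x y : L.X, dist x y = (L.d x y : ℝ) := fun _ _ => rfl
  refine ⟨L.X, inferInstance, ⟨inferInstance, fun x y => ⟨_, rfl⟩, fun A B hA _ f => ?_,
    fun Y _ _ hY => ?_⟩, L.G, inferInstance, inferInstance, fun g x y => by rw [hd, hd, hI.1],
    fun a b ha _ h => hS a b ha (st_met hM hM (fun i j => ?_))⟩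
  · have := hA.to_subtype
    obtain ⟨e, h1, h2, -⟩ := ultra pull_met hM hE (a := fun a : A => (a : L.X))
      (b := fun a : A => (f a : L.X)) (st_met hM hM (fun i j => by
        have := f.dist_eq i j
        rw [Subtype.dist_eq, Subtype.dist_eq, hd, hd] at this
        exact_mod_cast this.symm))
    exact ⟨⟨e, Isometry.of_dist_eq (fun x y => by
      rw [hd, hd]; exact congrArg _ (h2 x y))⟩, h1⟩
  · choose d hq using hY
    obtain ⟨f, hf⟩ := univ (dY := d) (RY := fun _ => True) pull_met
      ⟨⟨fun x y => by rw [← dist_eq_zero (x := x), hq]; simp, fun x y => by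
        have := dist_comm x y
        rw [hq, hq] at this
        exact_mod_cast this, fun x y z => by
        have := dist_triangle x y z
        rw [hq, hq, hq] at this
        exact_mod_cast this⟩, fun _ => trivial⟩ hE
    exact ⟨f, Isometry.of_dist_eq (fun x y => by rw [hd, hq, ← (hf.1 x y).1]; rfl)⟩
  · have := h i j
    rw [hd, hd] at this
    exact_mod_cast this

end Pool.Agent.Results.MP_5b0e2c_al.Yes
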